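import Pool.Agent.TH384.Tre.Shift

/-!
# Anti-concentration for random halves of a window (job 1557)
-/

set_option autoImplicit false

namespace Pool.Agent.TH384.Tre

open Finset Pool.Agent.TH708.Dec Pool.Agent.TH708.Tre

theorem central_upper (j : ℕ) : Nat.centralBinom j ^ 2 * (3 * j + 1) ≤ 16 ^ j := by
  induction j with
  | zero => simp
  | succ j ih =>
    have h := Nat.succ_mul_centralBinom_succ j
    have h1 : (j + 1) ^ 2 * (Nat.centralBinom (j + 1) ^ 2 * (3 * (j + 1) + 1)) ≤
        (j + 1) ^ 2 * 16 ^ (j + 1) := by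
      calc (j + 1) ^ 2 * (Nat.centralBinom (j + 1) ^ 2 * (3 * (j + 1) + 1))
          = ((j + 1) * Nat.centralBinom (j + 1)) ^ 2 * (3 * j + 4) := by ring
        _ = (2 * (2 * j + 1) * Nat.centralBinom j) ^ 2 * (3 * j + 4) := by rw [h]
        _ = Nat.centralBinom j ^ 2 * (4 * ((2 * j + 1) ^ 2 * (3 * j + 4))) := by ring
        _ ≤ Nat.centralBinom j ^ 2 * (4 * (4 * ((j + 1) ^ 2 * (3 * j + 1)))) := by
            refine Nat.mul_le_mul_left _ (Nat.mul_le_mul_left _ ?_)
            nlinarith
        _ = (j + 1) ^ 2 * (16 * (Nat.centralBinom j ^ 2 * (3 * j + 1))) := by ring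
        _ ≤ (j + 1) ^ 2 * (16 * 16 ^ j) :=
            Nat.mul_le_mul_left _ (Nat.mul_le_mul_left _ ih)
        _ = (j + 1) ^ 2 * 16 ^ (j + 1) := by ring
    exact Nat.le_of_mul_le_mul_left h1 (by positivity)

theorem central_lower (b : ℕ) (hb : 1 ≤ b) : 16 ^ b ≤ Nat.centralBinom b ^ 2 * (4 * b) := by
  induction b, hb using Nat.le_induction with
  | base => simp [Nat.centralBinom, Nat.choose]
  | succ b hb ih =>
    have h := Nat.succ_mul_centralBinom_succ b
    have h1 : (b + 1) * 16 ^ (b + 1) ≤
        (b + 1) * (Nat.centralBinom (b + 1) ^ 2 * (4 * (b + 1))) := by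
      calc (b + 1) * 16 ^ (b + 1) = 16 * (b + 1) * 16 ^ b := by ring
        _ ≤ 16 * (b + 1) * (Nat.centralBinom b ^ 2 * (4 * b)) := Nat.mul_le_mul_left _ ih
        _ = Nat.centralBinom b ^ 2 * (16 * (4 * (b * (b + 1)))) := by ring
        _ ≤ Nat.centralBinom b ^ 2 * (16 * (2 * b + 1) ^ 2) := by
            refine Nat.mul_le_mul_left _ (Nat.mul_le_mul_left _ ?_)
            nlinarith
        _ = 4 * (2 * (2 * b + 1) * Nat.centralBinom b) ^ 2 := by ring
        _ = 4 * ((b + 1) * Nat.centralBinom (b + 1)) ^ 2 := by rw [h]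
        _ = (b + 1) * (Nat.centralBinom (b + 1) ^ 2 * (4 * (b + 1))) := by ring
    exact Nat.le_of_mul_le_mul_left h1 (by positivity)

theorem choose_upper (m x : ℕ) : Nat.choose m x ^ 2 * m ≤ 4 ^ m := by
  have h1 : Nat.choose m x ≤ Nat.choose m (m / 2) := Nat.choose_le_middle x m
  have h2 : Nat.choose m (m / 2) ^ 2 * m ≤ 4 ^ m := by
    rcases Nat.even_or_odd' m with ⟨j, rfl | rfl⟩
    · have e : 2 * j / 2 = j := by omega
      rw [e]
      have h3 := central_upper j
      rw [Nat.centralBinom] at h3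
      calc Nat.choose (2 * j) j ^ 2 * (2 * j) ≤ Nat.choose (2 * j) j ^ 2 * (3 * j + 1) :=
            Nat.mul_le_mul_left _ (by omega)
        _ ≤ 16 ^ j := h3
        _ = 4 ^ (2 * j) := by rw [pow_mul]; norm_num
    · have e : (2 * j + 1) / 2 = j := by omega
      rw [e]
      have h3 := central_upper (j + 1)
      have h4 : Nat.centralBinom (j + 1) = 2 * Nat.choose (2 * j + 1) j := by
        rw [Nat.centralBinom]
        have e1 : 2 * (j + 1) = (2 * j + 1) + 1 := by ring
        rw [e1, Nat.choose_succ_succ]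
        have e2 : Nat.choose (2 * j + 1) j.succ = Nat.choose (2 * j + 1) j :=
          Nat.choose_symm_half j
        omega
      rw [h4] at h3
      have h5 : (3 * j + 4) * (Nat.choose (2 * j + 1) j ^ 2 * (2 * j + 1)) ≤
          (3 * j + 4) * 4 ^ (2 * j + 1) := by
        calc (3 * j + 4) * (Nat.choose (2 * j + 1) j ^ 2 * (2 * j + 1))
            ≤ (3 * j + 4) * (Nat.choose (2 * j + 1) j ^ 2 * (3 * j + 4)) := by
              refine Nat.mul_le_mul_left _ (Nat.mul_le_mul_left _ (by omega))
          _ = (3 * j + 4) * (Nat.choose (2 * j + 1) j ^ 2 * (3 * j + 4)) := rfl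
          _ ≤ (3 * j + 4) * 4 ^ (2 * j + 1) := by
              refine Nat.mul_le_mul_left _ ?_
              have e3 : 4 * (Nat.choose (2 * j + 1) j ^ 2 * (3 * j + 4)) ≤ 4 * 4 ^ (2 * j + 1) := by
                calc 4 * (Nat.choose (2 * j + 1) j ^ 2 * (3 * j + 4)) =
                      (2 * Nat.choose (2 * j + 1) j) ^ 2 * (3 * (j + 1) + 1) := by ring
                  _ ≤ 16 ^ (j + 1) := h3
                  _ = 4 * 4 ^ (2 * j + 1) := by
                      have : (16 : ℕ) = 4 ^ 2 := by norm_num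
                      rw [this, ← pow_mul]
                      ring
              omega
      exact Nat.le_of_mul_le_mul_left h5 (by omega)
  calc Nat.choose m x ^ 2 * m ≤ Nat.choose m (m / 2) ^ 2 * m :=
        Nat.mul_le_mul_right _ (Nat.pow_le_pow_left h1 2)
    _ ≤ 4 ^ m := h2

theorem choose_prod {τ b k m x y : ℕ} (hτ : 1 ≤ τ) (hτb : τ ^ 2 ≤ b) (hkm : k + m = 2 * b)
    (hk : τ ^ 2 < k) (hm : τ ^ 2 < m) :
    Nat.choose k x * Nat.choose m y * τ ≤ 2 * Nat.choose (2 * b) b := by
  have hb : 1 ≤ b := by nlinarith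
  have h1 := choose_upper k x
  have h2 := choose_upper m y
  have h3 := central_lower b hb
  rw [Nat.centralBinom] at h3
  have hkmb : τ ^ 2 * b ≤ k * m := by
    rcases le_total k m with h | h
    · have : b ≤ m := by omega
      exact Nat.mul_le_mul hk.le this
    · have : b ≤ k := by omega
      calc τ ^ 2 * b ≤ m * k := Nat.mul_le_mul hm.le this
        _ = k * m := mul_comm _ _
  have h4 : (Nat.choose k x * Nat.choose m y) ^ 2 * (k * m) ≤ 16 ^ b := by
    calc (Nat.choose k x * Nat.choose m y) ^ 2 * (k * m) =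
          (Nat.choose k x ^ 2 * k) * (Nat.choose m y ^ 2 * m) := by ring
      _ ≤ 4 ^ k * 4 ^ m := Nat.mul_le_mul h1 h2
      _ = 16 ^ b := by
          rw [← pow_add, hkm, pow_mul]; norm_num
  have h5 : b * ((Nat.choose k x * Nat.choose m y * τ) ^ 2) ≤
      b * ((2 * Nat.choose (2 * b) b) ^ 2) := by
    calc b * ((Nat.choose k x * Nat.choose m y * τ) ^ 2) =
          (Nat.choose k x * Nat.choose m y) ^ 2 * (τ ^ 2 * b) := by ring
      _ ≤ (Nat.choose k x * Nat.choose m y) ^ 2 * (k * m) := Nat.mul_le_mul_left _ hkmb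
      _ ≤ 16 ^ b := h4
      _ ≤ Nat.choose (2 * b) b ^ 2 * (4 * b) := h3
      _ = b * ((2 * Nat.choose (2 * b) b) ^ 2) := by ring
  have h6 := Nat.le_of_mul_le_mul_left h5 (by omega)
  exact (Nat.pow_le_pow_iff_left two_ne_zero).1 h6

/-- the number of `b`-subsets of `Z` with `x` elements in `D` -/
theorem count_fibre (b x : ℕ) (D Z : Finset ℕ) :
    ((powersetCard b Z).filter fun Y => (Y ∩ D).card = x).card ≤
      Nat.choose (Z ∩ D).card x * Nat.choose (Z \ D).card (b - x) := by
  have h : ((powersetCard b Z).filter fun Y => (Y ∩ D).card = x).card ≤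
      (powersetCard x (Z ∩ D) ×ˢ powersetCard (b - x) (Z \ D)).card := by
    refine card_le_card_of_injOn (fun Y => (Y ∩ D, Y \ D)) ?_ ?_
    · intro Y hY
      rw [mem_coe, mem_filter, mem_powersetCard] at hY
      obtain ⟨⟨h1, h2⟩, h3⟩ := hY
      rw [mem_coe, mem_product, mem_powersetCard, mem_powersetCard]
      refine ⟨⟨inter_subset_inter h1 Subset.rfl, h3⟩, sdiff_subset_sdiff h1 Subset.rfl, ?_⟩
      have := card_sdiff_add_card_inter Y D
      show (Y \ D).card = b - x
      omega
    · intro Y _ Y' _ he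
      rw [Prod.mk.injEq] at he
      rw [← sdiff_union_inter Y D, ← sdiff_union_inter Y' D, he.1, he.2]
  rwa [card_product, card_powersetCard, card_powersetCard] at h

/-- anti-concentration -/
theorem count_close {τ s b : ℕ} (hτ : 1 ≤ τ) (hτb : τ ^ 2 ≤ b) {D Z : Finset ℕ}
    (hZ : Z.card = 2 * b) (hD : Dirty (τ ^ 2) D Z) (B : ℕ) [DecidablePred fun Y : Finset ℕ =>
      (Y ∩ D).card ≤ B + s ∧ B ≤ (Y ∩ D).card + s] :
    ((powersetCard b Z).filter fun Y => (Y ∩ D).card ≤ B + s ∧ B ≤ (Y ∩ D).card + s).card * τ ≤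
      (2 * s + 1) * (2 * Nat.choose (2 * b) b) := by
  set N := Nat.choose (2 * b) b with hN
  have h1 : ∀ x ∈ ((powersetCard b Z).filter fun Y => (Y ∩ D).card ≤ B + s ∧
      B ≤ (Y ∩ D).card + s).image (fun Y => (Y ∩ D).card),
      (((powersetCard b Z).filter fun Y => (Y ∩ D).card ≤ B + s ∧ B ≤ (Y ∩ D).card + s).filter
        fun Y => (Y ∩ D).card = x).card ≤ 2 * N / τ := by
    intro x _
    have h2 : (((powersetCard b Z).filter fun Y => (Y ∩ D).card ≤ B + s ∧
        B ≤ (Y ∩ D).card + s).filter fun Y => (Y ∩ D).card = x).card ≤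
        ((powersetCard b Z).filter fun Y => (Y ∩ D).card = x).card :=
      card_le_card (filter_subset_filter _ (filter_subset _ _))
    have h3 := count_fibre b x D Z
    have h4 : Nat.choose (Z ∩ D).card x * Nat.choose (Z \ D).card (b - x) * τ ≤ 2 * N := by
      refine choose_prod hτ hτb ?_ hD.1 hD.2
      have := card_sdiff_add_card_inter Z D
      omega
    rw [Nat.le_div_iff_mul_le (by omega)]
    exact (Nat.mul_le_mul_right τ (h2.trans h3)).trans h4
  have h5 := card_le_mul_card_image _ (2 * N / τ) h1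
  have h6 : (((powersetCard b Z).filter fun Y => (Y ∩ D).card ≤ B + s ∧
      B ≤ (Y ∩ D).card + s).image (fun Y => (Y ∩ D).card)).card ≤ 2 * s + 1 := by
    have hsub : ((powersetCard b Z).filter fun Y => (Y ∩ D).card ≤ B + s ∧
        B ≤ (Y ∩ D).card + s).image (fun Y => (Y ∩ D).card) ⊆ Icc (B - s) (B + s) := by
      intro x hx
      rw [mem_image] at hx
      obtain ⟨Y, hY, rfl⟩ := hx
      rw [mem_filter] at hY
      rw [mem_Icc]
      omega
    refine (card_le_card hsub).trans ?_
    rw [Nat.card_Icc]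
    omega
  calc _ ≤ (2 * N / τ * (2 * s + 1)) * τ :=
        Nat.mul_le_mul_right τ (h5.trans (Nat.mul_le_mul_left _ h6))
    _ = (2 * s + 1) * (2 * N / τ * τ) := by ring
    _ ≤ (2 * s + 1) * (2 * N) := Nat.mul_le_mul_left _ (Nat.div_mul_le_self _ _)

theorem sample : Pool.Agent.TH708.Tre.T_sample := by
  classical
  intro τ s b hτ hτb Z Z' hZ hZ' F u hu
  set N := Nat.choose (2 * b) b with hN
  have hN0 : 0 < N := Nat.choose_pos (by omega)
  set A := powersetCard b Z ×ˢ powersetCard b Z' with hA
  have hcA : A.card = N * N := by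
    rw [hA, card_product, card_powersetCard, card_powersetCard, hZ, hZ']
  have hAne : A.Nonempty := by
    rw [← card_pos, hcA]; positivity
  obtain ⟨⟨Y, Y'⟩, hYY, h⟩ := average A hAne F u hu
    (fun y D => (Dirty (τ ^ 2) D Z ∨ Dirty (τ ^ 2) D Z') ∧ Close s D y.1 y.2)
    (τ : ℝ) (8 * (s + 1)) (Nat.cast_nonneg _) (by
      intro D _
      have key : (A.filter fun y => (Dirty (τ ^ 2) D Z ∨ Dirty (τ ^ 2) D Z') ∧
          Close s D y.1 y.2).card * τ ≤ N * ((2 * s + 1) * (2 * N)) := by
        by_cases hd : Dirty (τ ^ 2) D Z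
        · -- sum over the second set
          have h1 : (A.filter fun y => (Dirty (τ ^ 2) D Z ∨ Dirty (τ ^ 2) D Z') ∧
              Close s D y.1 y.2).card ≤ ∑ Y' ∈ powersetCard b Z',
              ((powersetCard b Z).filter fun Y => (Y ∩ D).card ≤ (Y' ∩ D).card + s ∧
                (Y' ∩ D).card ≤ (Y ∩ D).card + s).card := by
            have h2 : (A.filter fun y => (Dirty (τ ^ 2) D Z ∨ Dirty (τ ^ 2) D Z') ∧
                Close s D y.1 y.2).card ≤ ((powersetCard b Z').sigma fun Y' =>
                (powersetCard b Z).filter fun Y => (Y ∩ D).card ≤ (Y' ∩ D).card + s ∧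
                (Y' ∩ D).card ≤ (Y ∩ D).card + s).card := by
              refine card_le_card_of_injOn (fun y => (⟨y.2, y.1⟩ : (_ : Finset ℕ) × Finset ℕ)) ?_ ?_
              · intro y hy
                rw [mem_coe, mem_filter, hA, mem_product] at hy
                rw [mem_coe, mem_sigma, mem_filter]
                exact ⟨hy.1.2, hy.1.1, hy.2.2⟩
              · intro y _ y' _ he
                rw [Sigma.mk.injEq] at he
                exact Prod.ext (eq_of_heq he.2) he.1
            rwa [card_sigma] at h2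
          calc _ ≤ (∑ Y' ∈ powersetCard b Z',
              ((powersetCard b Z).filter fun Y => (Y ∩ D).card ≤ (Y' ∩ D).card + s ∧
                (Y' ∩ D).card ≤ (Y ∩ D).card + s).card) * τ := Nat.mul_le_mul_right τ h1
            _ = ∑ Y' ∈ powersetCard b Z',
              ((powersetCard b Z).filter fun Y => (Y ∩ D).card ≤ (Y' ∩ D).card + s ∧
                (Y' ∩ D).card ≤ (Y ∩ D).card + s).card * τ := by rw [sum_mul]
            _ ≤ ∑ Y' ∈ powersetCard b Z', (2 * s + 1) * (2 * N) :=
              sum_le_sum fun Y' _ => count_close hτ hτb hZ hd _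
            _ = N * ((2 * s + 1) * (2 * N)) := by
              rw [sum_const, card_powersetCard, hZ', smul_eq_mul]
        · by_cases hd' : Dirty (τ ^ 2) D Z'
          · have h1 : (A.filter fun y => (Dirty (τ ^ 2) D Z ∨ Dirty (τ ^ 2) D Z') ∧
                Close s D y.1 y.2).card ≤ ∑ Y ∈ powersetCard b Z,
                ((powersetCard b Z').filter fun Y' => (Y' ∩ D).card ≤ (Y ∩ D).card + s ∧
                  (Y ∩ D).card ≤ (Y' ∩ D).card + s).card := by
              have h2 : (A.filter fun y => (Dirty (τ ^ 2) D Z ∨ Dirty (τ ^ 2) D Z') ∧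
                  Close s D y.1 y.2).card ≤ ((powersetCard b Z).sigma fun Y =>
                  (powersetCard b Z').filter fun Y' => (Y' ∩ D).card ≤ (Y ∩ D).card + s ∧
                  (Y ∩ D).card ≤ (Y' ∩ D).card + s).card := by
                refine card_le_card_of_injOn (fun y => (⟨y.1, y.2⟩ : (_ : Finset ℕ) × Finset ℕ)) ?_ ?_
                · intro y hy
                  rw [mem_coe, mem_filter, hA, mem_product] at hy
                  rw [mem_coe, mem_sigma, mem_filter]
                  exact ⟨hy.1.1, hy.1.2, hy.2.2.2, hy.2.2.1⟩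
                · intro y _ y' _ he
                  rw [Sigma.mk.injEq] at he
                  exact Prod.ext he.1 (eq_of_heq he.2)
              rwa [card_sigma] at h2
            calc _ ≤ (∑ Y ∈ powersetCard b Z,
                ((powersetCard b Z').filter fun Y' => (Y' ∩ D).card ≤ (Y ∩ D).card + s ∧
                  (Y ∩ D).card ≤ (Y' ∩ D).card + s).card) * τ := Nat.mul_le_mul_right τ h1
              _ = ∑ Y ∈ powersetCard b Z,
                ((powersetCard b Z').filter fun Y' => (Y' ∩ D).card ≤ (Y ∩ D).card + s ∧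
                  (Y ∩ D).card ≤ (Y' ∩ D).card + s).card * τ := by rw [sum_mul]
              _ ≤ ∑ Y ∈ powersetCard b Z, (2 * s + 1) * (2 * N) :=
                sum_le_sum fun Y _ => count_close hτ hτb hZ' hd' _
              _ = N * ((2 * s + 1) * (2 * N)) := by
                rw [sum_const, card_powersetCard, hZ, smul_eq_mul]
          · have : (A.filter fun y => (Dirty (τ ^ 2) D Z ∨ Dirty (τ ^ 2) D Z') ∧
                Close s D y.1 y.2) = ∅ := by
              rw [filter_eq_empty_iff]
              rintro y _ ⟨h1 | h1, _⟩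
              · exact hd h1
              · exact hd' h1
            rw [this]
            simp
      have key2 : (τ : ℝ) * ((A.filter fun y => (Dirty (τ ^ 2) D Z ∨ Dirty (τ ^ 2) D Z') ∧
          Close s D y.1 y.2).card : ℝ) ≤ N * ((2 * s + 1) * (2 * N)) := by
        rw [mul_comm]
        exact_mod_cast key
      refine key2.trans ?_
      rw [hcA]
      push_cast
      have hs0 : (0 : ℝ) ≤ s := Nat.cast_nonneg _
      have hN1 : (0 : ℝ) ≤ N * N := by positivity
      nlinarith [mul_nonneg hs0 hN1])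
  rw [hA, mem_product, mem_powersetCard, mem_powersetCard] at hYY
  exact ⟨Y, Y', hYY.1.1, hYY.1.2, hYY.2.1, hYY.2.2, fun G hG hb => h G hG hb⟩

end Pool.Agent.TH384.Tre
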