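import Pool.Agent.TH708.Tre.Defs

/-!
# A random shift avoids colour changes (job 1558)
-/

set_option autoImplicit false

namespace Pool.Agent.TH384.Tre

open Finset Pool.Agent.TH708.Dec Pool.Agent.TH708.Tre

theorem err_add (c : Bool) (D Z : Finset ℕ) : err c D Z + err (!c) D Z = Z.card := by
  cases c
  · simp only [err, Bool.not_false, Bool.false_eq_true, if_false, if_true]
    rw [add_comm, card_sdiff_add_card_inter]
  · simp only [err, Bool.not_true, Bool.false_eq_true, if_false, if_true]
    rw [card_sdiff_add_card_inter]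

theorem err_mono (c : Bool) (D : Finset ℕ) {Z Z' : Finset ℕ} (h : Z ⊆ Z') :
    err c D Z ≤ err c D Z' := by
  cases c
  · simp only [err, Bool.false_eq_true, if_false]
    exact card_le_card (inter_subset_inter h Subset.rfl)
  · simp only [err, if_true]
    exact card_le_card (sdiff_subset_sdiff h Subset.rfl)

theorem close_bd {t R : ℕ} {D : Finset ℕ} {c : Bool} {p p' : ℕ} (_hpp : p < p')
    (hle : p' ≤ p + 2 * R) (h : err (!c) D (Ico p (p + 2 * R)) ≤ t)
    (h' : err c D (Ico (p' - 2 * R) p') ≤ t) : p' - p ≤ 2 * t := by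
  have h1 : err (!c) D (Ico p p') ≤ t :=
    (err_mono _ D (Ico_subset_Ico_right hle)).trans h
  have h2 : err c D (Ico p p') ≤ t :=
    (err_mono _ D (Ico_subset_Ico_left (by omega))).trans h'
  have h3 := err_add c D (Ico p p')
  rw [Nat.card_Ico] at h3
  omega

theorem card_classes {t R : ℕ} (S : Finset ℕ) (hS : ∀ a ∈ S, R ≤ a ∧ a ≤ 3 * R)
    (h : ∀ a ∈ S, ∀ a' ∈ S, a < a' → a' ≤ a + R / 2 → a' ≤ a + t) : S.card ≤ 4 * (t + 1) := by
  have h1 : ∀ j ∈ S.image (fun a => (a - R) / (R / 2 + 1)),
      (S.filter fun a => (a - R) / (R / 2 + 1) = j).card ≤ t + 1 := by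
    intro j _
    rcases (S.filter fun a => (a - R) / (R / 2 + 1) = j).eq_empty_or_nonempty with he | hne
    · rw [he]; simp
    · set m := (S.filter fun a => (a - R) / (R / 2 + 1) = j).min' hne with hm
      have hmS := (S.filter fun a => (a - R) / (R / 2 + 1) = j).min'_mem hne
      rw [← hm, mem_filter] at hmS
      have hsub : (S.filter fun a => (a - R) / (R / 2 + 1) = j) ⊆ Icc m (m + t) := by
        intro a ha
        have hma : m ≤ a := min'_le _ _ ha
        rw [mem_filter] at ha
        rw [mem_Icc]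
        refine ⟨hma, ?_⟩
        rcases hma.eq_or_lt with he | hlt
        · omega
        · apply h m hmS.1 a ha.1 hlt
          have e1 := hmS.2
          have e2 := ha.2
          have h2 := (Nat.div_eq_iff (by omega : 0 < R / 2 + 1)).1 e1
          have h3 := (Nat.div_eq_iff (by omega : 0 < R / 2 + 1)).1 e2
          have h4 := (hS m hmS.1).1
          have h5 := (hS a ha.1).1
          omega
      refine (card_le_card hsub).trans ?_
      rw [Nat.card_Icc]
      omega
  have h2 := card_le_mul_card_image S (t + 1) h1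
  have h3 : (S.image (fun a => (a - R) / (R / 2 + 1))).card ≤ 4 := by
    have : S.image (fun a => (a - R) / (R / 2 + 1)) ⊆ range 4 := by
      intro j hj
      rw [mem_image] at hj
      obtain ⟨a, ha, rfl⟩ := hj
      rw [mem_range, Nat.div_lt_iff_lt_mul (by omega)]
      have := (hS a ha).2
      omega
    exact (card_le_card this).trans (by simp)
  calc S.card ≤ (t + 1) * (S.image (fun a => (a - R) / (R / 2 + 1))).card := h2
    _ ≤ (t + 1) * 4 := Nat.mul_le_mul_left _ h3
    _ = 4 * (t + 1) := by ring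

open Classical in
theorem count_bd (t R : ℕ) (D : Finset ℕ) (α β : ℕ) (hβ : 2 ≤ β) (hβ4 : β ≤ 4) :
    ((Icc R (3 * R)).filter fun a => Bd t R D (α + β * a)).card ≤ 8 * (t + 1) := by
  have key : ∀ c : Bool, ((Icc R (3 * R)).filter fun a =>
      err c D (Ico (α + β * a - 2 * R) (α + β * a)) ≤ t ∧
        err (!c) D (Ico (α + β * a) (α + β * a + 2 * R)) ≤ t).card ≤ 4 * (t + 1) := by
    intro c
    apply card_classes (R := R)
    · intro a ha
      rw [mem_filter, mem_Icc] at ha
      exact ha.1
    · intro a ha a' ha' hlt hle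
      rw [mem_filter] at ha ha'
      have e1 : β * a < β * a' := Nat.mul_lt_mul_of_pos_left hlt (by omega)
      have e2 : β * a' ≤ β * a + 2 * R := by
        calc β * a' ≤ β * (a + R / 2) := Nat.mul_le_mul_left _ hle
          _ = β * a + β * (R / 2) := by ring
          _ ≤ β * a + 4 * (R / 2) := by
              have := Nat.mul_le_mul_right (R / 2) hβ4
              omega
          _ ≤ β * a + 2 * R := by omega
      have h1 := close_bd (t := t) (R := R) (D := D) (c := c) (p := α + β * a)
        (p' := α + β * a') (by omega) (by omega) ha.2.2 ha'.2.1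
      have e3 : α + β * a' - (α + β * a) = β * (a' - a) := by
        rw [Nat.mul_sub]; omega
      rw [e3] at h1
      have e4 : 2 * (a' - a) ≤ β * (a' - a) := Nat.mul_le_mul_right _ hβ
      omega
  have hsub : ((Icc R (3 * R)).filter fun a => Bd t R D (α + β * a)) ⊆
      ((Icc R (3 * R)).filter fun a =>
        err true D (Ico (α + β * a - 2 * R) (α + β * a)) ≤ t ∧
          err (!true) D (Ico (α + β * a) (α + β * a + 2 * R)) ≤ t) ∪
      ((Icc R (3 * R)).filter fun a =>
        err false D (Ico (α + β * a - 2 * R) (α + β * a)) ≤ t ∧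
          err (!false) D (Ico (α + β * a) (α + β * a + 2 * R)) ≤ t) := by
    intro a ha
    rw [mem_filter] at ha
    obtain ⟨h1, c, h2⟩ := ha
    rw [mem_union, mem_filter, mem_filter]
    cases c
    · exact Or.inr ⟨h1, h2⟩
    · exact Or.inl ⟨h1, h2⟩
  have h3 := card_le_card hsub
  have h4 := card_union_le ((Icc R (3 * R)).filter fun a =>
        err true D (Ico (α + β * a - 2 * R) (α + β * a)) ≤ t ∧
          err (!true) D (Ico (α + β * a) (α + β * a + 2 * R)) ≤ t)
      ((Icc R (3 * R)).filter fun a =>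
        err false D (Ico (α + β * a - 2 * R) (α + β * a)) ≤ t ∧
          err (!false) D (Ico (α + β * a) (α + β * a + 2 * R)) ≤ t)
  have k1 := key true
  have k2 := key false
  omega

/-- averaging over a finite set of choices -/
theorem average {α β : Type*} (A : Finset α) (hA : A.Nonempty) (F : Finset β) (u : β → ℝ)
    (hu : ∀ D ∈ F, 0 ≤ u D) (bad : α → β → Prop) [∀ a D, Decidable (bad a D)] (p q : ℝ)
    (hp : 0 ≤ p) (h : ∀ D ∈ F, p * ((A.filter fun a => bad a D).card : ℝ) ≤ q * A.card) :
    ∃ a ∈ A, ∀ G ⊆ F, (∀ D ∈ G, bad a D) → p * ∑ D ∈ G, u D ≤ q * ∑ D ∈ F, u D := by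
  by_contra hcon
  push Not at hcon
  have h1 : ∀ a ∈ A, q * ∑ D ∈ F, u D < p * ∑ D ∈ F.filter (fun D => bad a D), u D := by
    intro a ha
    obtain ⟨G, hG, hG1, hG2⟩ := hcon a ha
    refine hG2.trans_le (mul_le_mul_of_nonneg_left ?_ hp)
    refine sum_le_sum_of_subset_of_nonneg ?_ ?_
    · intro D hD
      exact mem_filter.2 ⟨hG hD, hG1 D hD⟩
    · intro D hD _
      exact hu D (mem_filter.1 hD).1
  have h2 := sum_lt_sum_of_nonempty hA h1
  have h3 : ∑ a ∈ A, ∑ D ∈ F.filter (fun D => bad a D), u D =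
      ∑ D ∈ F, ((A.filter fun a => bad a D).card : ℝ) * u D := by
    simp_rw [sum_filter]
    rw [sum_comm]
    refine sum_congr rfl fun D _ => ?_
    rw [← sum_filter, sum_const, nsmul_eq_mul]
  have e1 : ∑ _a ∈ A, q * ∑ D ∈ F, u D = ∑ D ∈ F, (q * A.card) * u D := by
    rw [sum_const, nsmul_eq_mul, ← mul_sum]
    ring
  have e2 : ∑ a ∈ A, p * ∑ D ∈ F.filter (fun D => bad a D), u D =
      ∑ D ∈ F, p * (((A.filter fun a => bad a D).card : ℝ) * u D) := by
    rw [← mul_sum, h3, mul_sum]
  have h4 : ∑ D ∈ F, p * (((A.filter fun a => bad a D).card : ℝ) * u D) ≤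
      ∑ D ∈ F, (q * A.card) * u D := by
    refine sum_le_sum fun D hD => ?_
    rw [← mul_assoc]
    exact mul_le_mul_of_nonneg_right (h D hD) (hu D hD)
  rw [e1, e2] at h2
  exact absurd h2 (not_lt.2 h4)

theorem shift : Pool.Agent.TH708.Tre.T_shift := by
  classical
  intro t R x K K' hR F u hu
  obtain ⟨a, ha, h⟩ := average (Icc R (3 * R)) ⟨R, by rw [mem_Icc]; omega⟩ F u hu
    (fun a D => Bd t R D (x + 2 * a) ∨ Bd t R D (x + 4 * a + K) ∨ Bd t R D (x + 2 * a + K'))
    (R : ℝ) (60 * (t + 1)) (Nat.cast_nonneg _) (by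
      intro D _
      have k1 := count_bd t R D x 2 le_rfl (by norm_num)
      have k2 := count_bd t R D (x + K) 4 (by norm_num) le_rfl
      have k3 := count_bd t R D (x + K') 2 le_rfl (by norm_num)
      have e2 : ∀ a, x + K + 4 * a = x + 4 * a + K := fun a => by ring
      have e3 : ∀ a, x + K' + 2 * a = x + 2 * a + K' := fun a => by ring
      simp only [e2] at k2
      simp only [e3] at k3
      have hsub : ((Icc R (3 * R)).filter fun a => Bd t R D (x + 2 * a) ∨
          Bd t R D (x + 4 * a + K) ∨ Bd t R D (x + 2 * a + K')) ⊆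
          ((Icc R (3 * R)).filter fun a => Bd t R D (x + 2 * a)) ∪
          (((Icc R (3 * R)).filter fun a => Bd t R D (x + 4 * a + K)) ∪
          ((Icc R (3 * R)).filter fun a => Bd t R D (x + 2 * a + K'))) := by
        intro a ha
        rw [mem_filter] at ha
        rw [mem_union, mem_union, mem_filter, mem_filter, mem_filter]
        tauto
      have h1 := card_le_card hsub
      have h2 := card_union_le ((Icc R (3 * R)).filter fun a => Bd t R D (x + 2 * a))
          (((Icc R (3 * R)).filter fun a => Bd t R D (x + 4 * a + K)) ∪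
          ((Icc R (3 * R)).filter fun a => Bd t R D (x + 2 * a + K')))
      have h3 := card_union_le ((Icc R (3 * R)).filter fun a => Bd t R D (x + 4 * a + K))
          ((Icc R (3 * R)).filter fun a => Bd t R D (x + 2 * a + K'))
      have h4 : ((Icc R (3 * R)).filter fun a => Bd t R D (x + 2 * a) ∨
          Bd t R D (x + 4 * a + K) ∨ Bd t R D (x + 2 * a + K')).card ≤ 24 * (t + 1) := by omega
      have h5 : (Icc R (3 * R)).card = 2 * R + 1 := by rw [Nat.card_Icc]; omega
      rw [h5]
      have h6 : ((((Icc R (3 * R)).filter fun a => Bd t R D (x + 2 * a) ∨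
          Bd t R D (x + 4 * a + K) ∨ Bd t R D (x + 2 * a + K')).card : ℕ) : ℝ) ≤ 24 * (t + 1) := by
        exact_mod_cast h4
      have hR0 : (0 : ℝ) ≤ R := Nat.cast_nonneg _
      have ht0 : (0 : ℝ) ≤ t := Nat.cast_nonneg _
      push_cast
      calc (R : ℝ) * _ ≤ R * (24 * (t + 1)) := mul_le_mul_of_nonneg_left h6 hR0
        _ ≤ 60 * (t + 1) * (2 * R + 1) := by nlinarith [mul_nonneg hR0 ht0])
  rw [mem_Icc] at ha
  refine ⟨a, ha.1, ha.2, fun G hG hb => ?_⟩
  exact h G hG hb

end Pool.Agent.TH384.Tre
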